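import Pool.Agent.Lib.MP_347126_al.BR.Glue

/-!
# MP_347126_al: Brunnian braids are conjugacy distinguished

For all `n ≥ 3`: if a pure braid `x` on `n` strands becomes trivial when any one of the strands
`2, …, n` is deleted (for example if `x` is a Brunnian braid) and `z` is central, then the conjugacy
class of `x z` is closed in the profinite topology of `B_n`, and of every subgroup of finite index
which contains `x z`.
-/

set_option autoImplicit false

namespace Pool.Agent.Results.MP_347126_al.BrunnianBraids

/-- the Artin relators of the braid group on `n` strands -/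
def relators (n : ℕ) : Set (FreeGroup (Fin (n - 1))) :=
  {r | ∃ i j : Fin (n - 1),
    (i.val + 1 = j.val ∧ r = FreeGroup.of i * FreeGroup.of j * FreeGroup.of i *
      (FreeGroup.of j * FreeGroup.of i * FreeGroup.of j)⁻¹) ∨
    (i.val + 2 ≤ j.val ∧ r = FreeGroup.of i * FreeGroup.of j *
      (FreeGroup.of j * FreeGroup.of i)⁻¹)}

/-- the braid group on `n` strands -/
abbrev B (n : ℕ) : Type := PresentedGroup (relators n)

/-- the standard generators of the braid group (numbered `0, …, n - 2`) -/
def sigma {n : ℕ} (i : Fin (n - 1)) : B n := PresentedGroup.of i

/-- The subgroup generated by the elements `b σ² b⁻¹`, where `σ` is the last generator and `b` is a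
product of the other generators and their inverses: the pure braids which become trivial when the
last strand is deleted. -/
def N (n : ℕ) : Subgroup (B n) :=
  Subgroup.closure {g | ∃ b ∈ Subgroup.closure {c : B n | ∃ i : Fin (n - 1), i.val + 2 < n ∧
    c = sigma i}, ∃ i : Fin (n - 1), i.val + 2 = n ∧ g = b * sigma i ^ 2 * b⁻¹}

/-- The subgroup generated by all the generators except the first one. The subgroups
`h (N n) h⁻¹`, `h ∈ H n`, consist of the pure braids which become trivial when the strand number `i`
is deleted, `i = 2, …, n`. -/
def H (n : ℕ) : Subgroup (B n) :=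
  Subgroup.closure {c : B n | ∃ i : Fin (n - 1), 0 < i.val ∧ c = sigma i}

/-- Let `n ≥ 3`, let `x` be a pure braid which becomes trivial when any one of the strands
`2, …, n` is deleted and let `z` be central. In every subgroup `K` of finite index of `B_n` which
contains `x z`, every element which is not conjugate to `x z` stays not conjugate to it under some
homomorphism of `K` to a finite group. -/
theorem result (n : ℕ) (hn : 3 ≤ n) (x z : B n) (hx : ∀ h ∈ H n, h⁻¹ * x * h ∈ N n)
    (hz : z ∈ Subgroup.center (B n)) (K : Subgroup (B n)) (hK : K.FiniteIndex) (g y : K)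
    (hg : (g : B n) = x * z) (hy : ¬ IsConj y g) :
    ∃ (F : Type) (_ : Group F) (_ : Finite F) (φ : K →* F), ¬ IsConj (φ y) (φ g) :=
  Pool.Agent.Lib.MP347126.BR.Glue.gFin n x z hn hx hz K g y hK hg hy

end Pool.Agent.Results.MP_347126_al.BrunnianBraids
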