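import Pool.Agent.Lib.MP_347126_al.Main

/-!
# MP_347126_al: the conjugacy classes of the powers of the standard generators are closed

For all `n ≥ 2`, `i`, `k` and every central element `z` of the braid group `B_n`, the element
`σ_i ^ k z` is conjugate to every element to which it is conjugate in all finite quotients.
-/

set_option autoImplicit false

namespace Pool.Agent.Results.MP_347126_al.HalfTwistPowers

/-- the Artin relators of the braid group on `n` strands -/
def relators (n : ℕ) : Set (FreeGroup (Fin (n - 1))) :=
  {r | ∃ i j : Fin (n - 1),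
    (i.val + 1 = j.val ∧ r = FreeGroup.of i * FreeGroup.of j * FreeGroup.of i *
      (FreeGroup.of j * FreeGroup.of i * FreeGroup.of j)⁻¹) ∨
    (i.val + 2 ≤ j.val ∧ r = FreeGroup.of i * FreeGroup.of j *
      (FreeGroup.of j * FreeGroup.of i)⁻¹)}

/-- the braid group on `n` strands -/
abbrev B (n : ℕ) : Type := PresentedGroup (relators n)

/-- the standard generators of the braid group -/
def sigma {n : ℕ} (i : Fin (n - 1)) : B n := PresentedGroup.of i

/-- In the braid group `B_n`, `n ≥ 2`, every element `y` which is not conjugate to
`x = σ_i ^ k z`, with `k` an integer and `z` central, stays not conjugate to `x` under some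
homomorphism to a finite group. -/
theorem result (n : ℕ) (hn : 2 ≤ n) (i : Fin (n - 1)) (k : ℤ) (z : B n)
    (hz : z ∈ Subgroup.center (B n)) (y : B n) (hy : ¬ IsConj y (sigma i ^ k * z)) :
    ∃ (F : Type) (_ : Group F) (_ : Finite F) (φ : B n →* F),
      ¬ IsConj (φ y) (φ (sigma i ^ k * z)) := by
  by_contra hcon
  push Not at hcon
  exact hy (Pool.Agent.Lib.MP347126.main hn i k z hz y fun F _ _ φ => hcon F _ ‹_› φ)

end Pool.Agent.Results.MP_347126_al.HalfTwistPowers
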